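import Pool.Agent.Q93.TP.Defs
import Pool.Agent.Q93.TP.Main

/-!
Every totally nonnegative kernel on `X × Y`, `X, Y ⊆ ℝ` non-empty, is the limit, at all its points
of continuity, of a sequence of totally positive kernels.

The kernels: `K_m(x,y) = (Z(x) W(y))⁻¹ (∑_{t,s} g(x,t) K(t,s) g(y,s) + ∑_k ε_k g(x,T_k) g(y,T_k))`
with Gaussian weights `g`, finite sets of nodes `t, s` from dense sequences, additional nodes `T_k`
to the right of them, and normalising factors `Z`, `W`.
-/

set_option autoImplicit false

namespace Pool.Agent.Results.MP_c12a31_an.TPApproximation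

open Q93.TP Filter Topology

theorem result : ∀ (X Y : Set ℝ), X.Nonempty → Y.Nonempty → ∀ K : X → Y → ℝ,
    IsTotallyNonnegative K →
    ∃ F : ℕ → X → Y → ℝ, (∀ m, IsTotallyPositive (F m)) ∧ ∀ (x : X) (y : Y),
      ContinuousAt (fun p : X × Y => K p.1 p.2) (x, y) →
      Tendsto (fun m => F m x y) atTop (𝓝 (K x y)) :=
  fun _ _ hX hY K hK => main hX hY K hK

end Pool.Agent.Results.MP_c12a31_an.TPApproximation
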